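import Pool.Agent.helper55.NM.Spec2

set_option autoImplicit false

namespace Pool.Agent.helper88.NM

open Pool.Agent.NM Pool.Agent.helper72.UP Finset Nat

theorem FLR : FLR_stmt := by
  intro ε hε
  obtain ⟨N, hN⟩ := exists_nat_gt (1 / (3 * ε))
  refine ⟨max N 6, fun n k hn h1 h2 => ?_⟩
  have hN' : N ≤ n := le_trans (le_max_left _ _) hn
  have h6 : 6 ≤ n := le_trans (le_max_right _ _) hn
  have hNr : (N : ℝ) ≤ n := by exact_mod_cast hN'
  have hpos : 0 < 3 * ε := by positivity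
  have h3 : 1 < (n : ℝ) * (3 * ε) := by
    have : 1 / (3 * ε) < n := lt_of_lt_of_le hN hNr
    rwa [div_lt_iff₀ hpos] at this
  have h6r : (6 : ℝ) ≤ n := by exact_mod_cast h6
  have hk3 : (n : ℝ) + 1 < 3 * k := by nlinarith
  have hk3' : n + 1 < 3 * k := by exact_mod_cast hk3
  have hk2 : 2 * (k : ℝ) ≤ n := by nlinarith
  have hk2' : 2 * k ≤ n := by exact_mod_cast hk2
  refine ⟨?_, by omega, by omega⟩
  apply Nat.div_eq_of_lt_le <;> omega

end Pool.Agent.helper88.NM
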